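import Mathlib

/-!
# MP_e77370_co: the conjectured bound for the total size of cross-`q`-intersecting families fails

For every `q ≥ 2`, every `k ≥ q + 1` and every `n` with `2 k - q + 1 ≤ n < (q + 1) (k - q + 1)` the
bound `max {M₁, M₂}` fails, with `k_1 = ... = k_t = k`, for all `t ≥ max {2, C(n,k)}`: take every
family equal to the family of all `k`-sets with at least `q + 1` elements in a fixed `(q + 2)`-set.
-/

set_option autoImplicit false

open Finset

namespace Pool.Agent.Results.MP_e77370_co.Disproof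

/-- `F` and `G` are cross-`q`-intersecting: each member of `F` shares at least `q` elements with
each member of `G`. -/
def Cross (q : ℕ) {n : ℕ} (F G : Finset (Finset (Fin n))) : Prop :=
  ∀ A ∈ F, ∀ B ∈ G, q ≤ (A ∩ B).card

/-- `M₁ = C(n,k_1) - ∑_{j=0}^{q-1} C(k_t,j) C(n-k_t,k_1-j) + ∑_{j=2}^t C(n-k_t,k_j-k_t)`. -/
def M₁ (t q n : ℕ) (k : ℕ → ℕ) : ℤ :=
  (n.choose (k 1) : ℤ) - ∑ j ∈ range q, ((k t).choose j : ℤ) * ((n - k t).choose (k 1 - j) : ℤ) +
    ∑ j ∈ Icc 2 t, ((n - k t).choose (k j - k t) : ℤ)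

/-- `M₂ = ∑_{j=1}^t C(n-q,k_j-q)`. -/
def M₂ (t q n : ℕ) (k : ℕ → ℕ) : ℤ := ∑ j ∈ Icc 1 t, ((n - q).choose (k j - q) : ℤ)

/-- The parameters of the question: `t ≥ 2`, `q ≥ 1`, `k_1 ≥ k_2 ≥ ... ≥ k_t ≥ q + 1` and
`n ≥ k_1 + k_2 - q + 1`. -/
def Admissible (t q n : ℕ) (k : ℕ → ℕ) : Prop :=
  2 ≤ t ∧ 1 ≤ q ∧ (∀ i j : ℕ, 1 ≤ i → i ≤ j → j ≤ t → k j ≤ k i) ∧ q + 1 ≤ k t ∧
    k 1 + k 2 + 1 ≤ n + q

/-- The inequality of the question for the parameters `t, q, n, k_1, ..., k_t`: all non-empty
cross-`q`-intersecting families `F_j` of `k_j`-element subsets of an `n`-set, `1 ≤ j ≤ t`, satisfy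
`|F_1| + ... + |F_t| ≤ max {M₁, M₂}`. -/
def Bound (t q n : ℕ) (k : ℕ → ℕ) : Prop :=
  ∀ F : ℕ → Finset (Finset (Fin n)),
    (∀ j ∈ Icc 1 t, (F j).Nonempty ∧ ∀ A ∈ F j, A.card = k j) →
    (∀ i ∈ Icc 1 t, ∀ j ∈ Icc 1 t, i ≠ j → Cross q (F i) (F j)) →
    ((∑ j ∈ Icc 1 t, (F j).card : ℕ) : ℤ) ≤ max (M₁ t q n k) (M₂ t q n k)

lemma card_trace {n : ℕ} (k : ℕ) (S T : Finset (Fin n)) (hTS : T ⊆ S) (hT : T.card ≤ k) :
    ((powersetCard k (univ : Finset (Fin n))).filter (fun A => A ∩ S = T)).card =
      (n - S.card).choose (k - T.card) := by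
  have h1 : (n - S.card).choose (k - T.card) = (powersetCard (k - T.card) Sᶜ).card := by
    rw [card_powersetCard, card_compl, Fintype.card_fin]
  rw [h1]
  refine card_nbij' (fun A => A \ S) (fun B => B ∪ T) ?_ ?_ ?_ ?_
  · intro A hA
    have hA' := mem_filter.1 (mem_coe.1 hA)
    have hc : A.card = k := (mem_powersetCard.1 hA'.1).2
    refine mem_coe.2 (mem_powersetCard.2 ⟨?_, ?_⟩)
    · intro x hx
      rw [mem_compl]
      exact (mem_sdiff.1 hx).2
    · have h := card_sdiff_add_card_inter A S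
      rw [hA'.2] at h
      dsimp only
      omega
  · intro B hB
    have hB' := mem_powersetCard.1 (mem_coe.1 hB)
    have hd : Disjoint B S := by
      rw [disjoint_left]
      intro x hx
      exact mem_compl.1 (hB'.1 hx)
    refine mem_coe.2 (mem_filter.2 ⟨mem_powersetCard.2 ⟨subset_univ _, ?_⟩, ?_⟩)
    · rw [card_union_of_disjoint (disjoint_of_subset_right hTS hd), hB'.2]
      omega
    · rw [union_inter_distrib_right, disjoint_iff_inter_eq_empty.1 hd, empty_union,
        inter_eq_left.2 hTS]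
  · intro A hA
    have hA' := mem_filter.1 (mem_coe.1 hA)
    dsimp only
    rw [← hA'.2, sdiff_union_inter]
  · intro B hB
    have hB' := mem_powersetCard.1 (mem_coe.1 hB)
    have hd : Disjoint B S := by
      rw [disjoint_left]
      intro x hx
      exact mem_compl.1 (hB'.1 hx)
    dsimp only
    rw [union_sdiff_distrib, sdiff_eq_self_of_disjoint hd, sdiff_eq_empty_iff_subset.2 hTS,
      union_empty]

/-- The family of all `k`-sets with at least `q + 1` elements in `S`. -/
def Fr (n k q : ℕ) (S : Finset (Fin n)) : Finset (Finset (Fin n)) :=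
  (powersetCard k (univ : Finset (Fin n))).filter (fun A => q + 1 ≤ (A ∩ S).card)

lemma cross_Fr (n k q : ℕ) (S : Finset (Fin n)) (hS : S.card = q + 2) :
    Cross q (Fr n k q S) (Fr n k q S) := by
  intro A hA B hB
  have h1 := (mem_filter.1 hA).2
  have h2 := (mem_filter.1 hB).2
  have h3 := card_union_add_card_inter (A ∩ S) (B ∩ S)
  have h4 : (A ∩ S ∪ B ∩ S).card ≤ S.card :=
    card_le_card (union_subset inter_subset_right inter_subset_right)
  have h5 : (A ∩ S ∩ (B ∩ S)).card ≤ (A ∩ B).card :=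
    card_le_card (inter_subset_inter inter_subset_left inter_subset_left)
  omega

/-- A lower bound for the number of members: the members missing exactly one element of `S`, and
those containing `S`. -/
lemma card_Fr (n k q a : ℕ) (S : Finset (Fin n)) (hS : S.card = q + 2) (hk : k = q + 1 + a) :
    (q + 2) * (n - (q + 2)).choose a + (if 1 ≤ a then (n - (q + 2)).choose (a - 1) else 0) ≤
      (Fr n k q S).card := by
  set P : Finset (Fin n) → Finset (Finset (Fin n)) := fun T =>
    (powersetCard k (univ : Finset (Fin n))).filter (fun A => A ∩ S = T) with hP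
  have hdisj : ∀ T₁ T₂, T₁ ≠ T₂ → Disjoint (P T₁) (P T₂) := by
    intro T₁ T₂ h
    rw [disjoint_left]
    intro A h1 h2
    exact h ((mem_filter.1 h1).2.symm.trans (mem_filter.1 h2).2)
  -- the members missing exactly one element of `S`
  have h1 : (S.biUnion (fun i => P (S.erase i))).card = (q + 2) * (n - (q + 2)).choose a := by
    rw [card_biUnion]
    · rw [sum_congr rfl (g := fun _ => (n - (q + 2)).choose a)]
      · rw [sum_const, smul_eq_mul, hS]
      · intro i hi
        have hc : (S.erase i).card = q + 1 := by rw [card_erase_of_mem hi, hS]; rfl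
        rw [hP]
        dsimp only
        rw [card_trace k S (S.erase i) (erase_subset _ _) (by omega), hS, hc]
        congr 1
        omega
    · intro i hi j hj hij
      apply hdisj
      intro h
      apply hij
      by_contra hne
      have : j ∈ S.erase i := mem_erase.2 ⟨fun e => hne e.symm, hj⟩
      rw [h] at this
      exact (mem_erase.1 this).1 rfl
  have hsub1 : S.biUnion (fun i => P (S.erase i)) ⊆ Fr n k q S := by
    intro A hA
    obtain ⟨i, hi, hA⟩ := mem_biUnion.1 hA
    have hA' := mem_filter.1 hA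
    refine mem_filter.2 ⟨hA'.1, ?_⟩
    rw [hA'.2, card_erase_of_mem hi, hS]
    omega
  by_cases ha : 1 ≤ a
  · rw [if_pos ha]
    have h2 : (P S).card = (n - (q + 2)).choose (a - 1) := by
      rw [hP]
      dsimp only
      rw [card_trace k S S (Subset.refl _) (by omega), hS]
      congr 1
      omega
    have hsub2 : P S ⊆ Fr n k q S := by
      intro A hA
      have hA' := mem_filter.1 hA
      refine mem_filter.2 ⟨hA'.1, ?_⟩
      rw [hA'.2, hS]
      omega
    have hd : Disjoint (S.biUnion (fun i => P (S.erase i))) (P S) := by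
      rw [disjoint_biUnion_left]
      intro i hi
      apply hdisj
      intro h
      have : i ∈ S.erase i := by rw [h]; exact hi
      exact (mem_erase.1 this).1 rfl
    calc _ = (S.biUnion (fun i => P (S.erase i)) ∪ P S).card := by
          rw [card_union_of_disjoint hd, h1, h2]
      _ ≤ _ := card_le_card (union_subset hsub1 hsub2)
  · rw [if_neg ha, add_zero, ← h1]
    exact card_le_card hsub1

/-- The family `Fr` has more members than the family of all `k`-sets containing `q` given
elements. -/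
lemma star_lt (n k q : ℕ) (hk : q + 1 ≤ k) (hn : 2 * k + 1 ≤ n + q)
    (hn' : n < (q + 1) * (k - q + 1)) (S : Finset (Fin n)) (hS : S.card = q + 2) :
    (n - q).choose (k - q) < (Fr n k q S).card := by
  obtain ⟨a, ha⟩ : ∃ a, k = q + 1 + a := ⟨k - (q + 1), by omega⟩
  obtain ⟨N, hN⟩ : ∃ N, n = q + 2 + N := ⟨n - (q + 2), by omega⟩
  have h0 := card_Fr n k q a S hS ha
  refine lt_of_lt_of_le ?_ h0
  have e1 : n - (q + 2) = N := by omega
  have e2 : n - q = N + 2 := by omega
  have e3 : k - q = a + 1 := by omega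
  rw [e1, e2, e3]
  rw [e3] at hn'
  -- `C(N, a+1) < q C(N, a)`
  have key : N.choose (a + 1) < q * N.choose a := by
    have h1 : N.choose (a + 1) * (a + 1) = N.choose a * (N - a) := Nat.choose_succ_right_eq N a
    have hpos : 0 < N.choose a := Nat.choose_pos (by omega)
    have h2 : N - a < q * (a + 1) := by
      have : (q + 1) * (a + 1 + 1) = q * (a + 1) + q + a + 2 := by ring
      omega
    have h3 : N.choose (a + 1) * (a + 1) < q * N.choose a * (a + 1) := by
      rw [h1]
      calc N.choose a * (N - a) < N.choose a * (q * (a + 1)) :=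
            Nat.mul_lt_mul_of_pos_left h2 hpos
        _ = _ := by ring
    exact Nat.lt_of_mul_lt_mul_right h3
  have e4 : (N + 2).choose (a + 1) =
      N.choose (a + 1) + 2 * N.choose a + (if 1 ≤ a then N.choose (a - 1) else 0) := by
    rw [Nat.choose_succ_succ' (N + 1) a, Nat.choose_succ_succ' N a]
    rcases Nat.eq_zero_or_pos a with rfl | hpos
    · simp
      ring
    · obtain ⟨b, rfl⟩ : ∃ b, a = b + 1 := ⟨a - 1, by omega⟩
      rw [if_pos (by omega), Nat.choose_succ_succ' N b]
      simp only [Nat.add_sub_cancel]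
      ring
  rw [e4]
  have e5 : (q + 2) * N.choose a = q * N.choose a + 2 * N.choose a := by ring
  omega

theorem fails (q k n t : ℕ) (hq : 2 ≤ q) (hk : q + 1 ≤ k) (hn : 2 * k + 1 ≤ n + q)
    (hn' : n < (q + 1) * (k - q + 1)) (ht : 2 ≤ t) (ht' : n.choose k ≤ t) :
    Admissible t q n (fun _ => k) ∧ ¬ Bound t q n (fun _ => k) := by
  refine ⟨⟨ht, by omega, fun _ _ _ _ _ => le_rfl, hk, ?_⟩, ?_⟩
  · dsimp only
    omega
  intro hB
  obtain ⟨S, hS⟩ : ∃ S : Finset (Fin n), S.card = q + 2 := by
    obtain ⟨S, -, hS⟩ := exists_subset_card_eq (s := (univ : Finset (Fin n))) (n := q + 2)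
      (by rw [card_univ, Fintype.card_fin]; omega)
    exact ⟨S, hS⟩
  have hlt := star_lt n k q hk hn hn' S hS
  have hpos : 0 < (n - q).choose (k - q) := Nat.choose_pos (by omega)
  have h := hB (fun _ => Fr n k q S)
    (fun j _ => ⟨card_pos.1 (by omega), fun A hA => (mem_powersetCard.1 (mem_filter.1 hA).1).2⟩)
    (fun i _ j _ _ => cross_Fr n k q S hS)
  rw [sum_const, Nat.card_Icc, smul_eq_mul, Nat.add_sub_cancel] at h
  rcases le_max_iff.1 h with h | h
  · -- `M₁ ≤ C(n,k) + t - 1`
    unfold M₁ at h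
    dsimp only at h
    have h1 : ∑ j ∈ Icc 2 t, ((n - k).choose (k - k) : ℤ) = (t - 1 : ℤ) := by
      rw [Nat.sub_self, Nat.choose_zero_right, sum_const, Nat.card_Icc]
      simp only [nsmul_eq_mul]
      have : ((t + 1 - 2 : ℕ) : ℤ) = (t : ℤ) - 1 := by omega
      rw [this]
      push_cast
      ring
    have h2 : (0 : ℤ) ≤ ∑ j ∈ range q, (k.choose j : ℤ) * ((n - k).choose (k - j) : ℤ) :=
      sum_nonneg (fun j _ => by positivity)
    rw [h1] at h
    have h3 : (2 : ℤ) ≤ (Fr n k q S).card := by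
      have : 2 ≤ (Fr n k q S).card := by omega
      exact_mod_cast this
    have h4 : ((n.choose k : ℕ) : ℤ) ≤ t := by exact_mod_cast ht'
    have h5 : (t : ℤ) * 2 ≤ t * (Fr n k q S).card :=
      mul_le_mul_of_nonneg_left h3 (by positivity)
    push_cast at h
    linarith
  · unfold M₂ at h
    dsimp only at h
    rw [sum_const, Nat.card_Icc, Nat.add_sub_cancel] at h
    simp only [nsmul_eq_mul] at h
    have h6 : t * (n - q).choose (k - q) < t * (Fr n k q S).card :=
      Nat.mul_lt_mul_of_pos_left hlt (by omega)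
    have h7 : t * (Fr n k q S).card ≤ t * (n - q).choose (k - q) := by exact_mod_cast h
    omega

/-- **The answer to Q1 is negative.** The inequality fails for some admissible parameters; more
precisely, for every `q ≥ 2`, every `k ≥ q + 1` and every `n` with
`2 k - q + 1 ≤ n < (q + 1) (k - q + 1)` it fails for `k_1 = ... = k_t = k` and all
`t ≥ max {2, C(n,k)}`. (The range of `n` is never empty: it contains `n = 2 k - q + 1`.) -/
theorem result :
    (¬ ∀ (t q n : ℕ) (k : ℕ → ℕ), Admissible t q n k → Bound t q n k) ∧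
    ∀ q k n t : ℕ, 2 ≤ q → q + 1 ≤ k → 2 * k + 1 ≤ n + q → n < (q + 1) * (k - q + 1) →
      2 ≤ t → n.choose k ≤ t →
      Admissible t q n (fun _ => k) ∧ ¬ Bound t q n (fun _ => k) := by
  refine ⟨fun h => ?_, fun q k n t h1 h2 h3 h4 h5 h6 => fails q k n t h1 h2 h3 h4 h5 h6⟩
  have h1 := fails 2 4 8 70 (by norm_num) (by norm_num) (by norm_num) (by norm_num) (by norm_num)
    (by decide)
  exact h1.2 (h _ _ _ _ h1.1)

end Pool.Agent.Results.MP_e77370_co.Disproof
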